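import Mathlib

namespace Pool.Agent.Results.MP_615e1a_lc.Q1

open FirstOrder FirstOrder.Language

universe u v w

/-- A set of finite sets is a sunflower. -/
def IsSunflower {X : Type w} (S : Set (Finset X)) : Prop :=
  ∃ r : Set X, ∀ p ∈ S, ∀ q ∈ S, p ≠ q → (p : Set X) ∩ q = r

/-- `M` is `n`-sunflowerable: every copy `Y` of `M` whose underlying set consists of `n`-element
sets has a substructure `Z ≅ Y` whose underlying set is a sunflower. -/
def Sunflowerable (L : FirstOrder.Language.{u, v}) (M : Type w) [L.Structure M] (n : ℕ) : Prop :=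
  ∀ (X : Type w) (Y : Set (Finset X)), (∀ p ∈ Y, p.card = n) → ∀ [L.Structure Y],
    Nonempty (M ≃[L] Y) →
      ∃ Z : L.Substructure Y, Nonempty (Z ≃[L] Y) ∧ IsSunflower (Subtype.val '' (Z : Set Y))

variable {L : FirstOrder.Language.{u, v}} {M : Type w} [L.Structure M]

lemma of_sun {n} (h : Sunflowerable L M n) {X : Type w} (f : M → Finset X)
    (hf : Function.Injective f) (hc : ∀ m, (f m).card = n) :
    ∃ g : M ↪[L] M, ∃ r : Set X, ∀ a b, a ≠ b → (f (g a) : Set X) ∩ f (g b) = r := by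
  let e : M ≃ Set.range f := Equiv.ofInjective f hf
  letI : L.Structure (Set.range f) := e.inducedStructure
  let e' : M ≃[L] Set.range f := e.inducedStructureEquiv
  obtain ⟨Z, ⟨i⟩, r, hr⟩ := h X (Set.range f) (by rintro _ ⟨m, rfl⟩; exact hc m) ⟨e'⟩
  let g : M ↪[L] M := e'.symm.toEmbedding.comp (Z.subtype.comp
    (i.symm.toEmbedding.comp e'.toEmbedding))
  have hg : ∀ a, f (g a) = ((i.symm (e' a) : Z) : Set.range f) := fun a =>
    congrArg Subtype.val (e.apply_symm_apply _)
  refine ⟨g, r, fun a b hab => hr _ ?_ _ ?_ (hf.ne (g.injective.ne hab))⟩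
  · exact ⟨_, (i.symm (e' a)).2, (hg a).symm⟩
  · exact ⟨_, (i.symm (e' b)).2, (hg b).symm⟩

lemma to_sun {n} (h : ∀ (X : Type w) (f : M → Finset X), Function.Injective f →
    (∀ m, (f m).card = n) → ∃ g : M ↪[L] M, ∃ r : Set X, ∀ a b, a ≠ b →
      (f (g a) : Set X) ∩ f (g b) = r) : Sunflowerable L M n := by
  rintro X Y hY _ ⟨e⟩
  obtain ⟨g, r, hr⟩ := h X (fun m => (e m).1) (Subtype.val_injective.comp e.injective)
    (fun m => hY _ (e m).2)
  let k : M ↪[L] Y := e.toEmbedding.comp g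
  refine ⟨k.toHom.range, ⟨e.comp k.equivRange.symm⟩, r, ?_⟩
  rintro _ ⟨_, ⟨a, rfl⟩, rfl⟩ _ ⟨_, ⟨b, rfl⟩, rfl⟩ hne
  exact hr a b fun hab => hne (by rw [hab])

lemma canon (h : Sunflowerable L M 2) {X : Type w} (x : M → X) :
    ∃ g : M ↪[L] M, (∀ a b, x (g a) = x (g b)) ∨ Function.Injective (x ∘ g) := by
  classical
  obtain ⟨g, r, hr⟩ := of_sun h (X := X ⊕ M) (fun m => {Sum.inl (x m), Sum.inr m})
    (fun a b hab => by
      have : (Sum.inr a : X ⊕ M) ∈ ({Sum.inl (x b), Sum.inr b} : Finset (X ⊕ M)) := by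
        simp only at hab; rw [← hab]; simp
      simpa using this) (fun m => Finset.card_pair (by simp))
  refine ⟨g, ?_⟩
  by_cases hi : Function.Injective (x ∘ g)
  · exact Or.inr hi
  left
  obtain ⟨a, b, hab, hne⟩ := Function.not_injective_iff.1 hi
  have h1 : Sum.inl (x (g a)) ∈ r := by
    rw [← hr a b hne]; simpa using hab
  intro c d
  by_cases hcd : c = d
  · rw [hcd]
  rw [← hr c d hcd] at h1
  simp at h1
  rw [← h1.1, ← h1.2]

lemma canon2 [Infinite M] (h : Sunflowerable L M 2) {X : Type w} [LinearOrder X] (x y : M → X)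
    (hxy : ∀ m, x m < y m) (hx : Function.Injective x) (hy : Function.Injective y) :
    ∃ g : M ↪[L] M, ∀ a b, x (g a) ≠ y (g b) := by
  classical
  obtain ⟨g, r, hr⟩ := of_sun h (fun m => ({x m, y m} : Finset X))
    (fun a b hab => by
      have h1 : x a ∈ ({x b, y b} : Finset X) := by simp only at hab; rw [← hab]; simp
      have h2 : x b ∈ ({x a, y a} : Finset X) := by simp only at hab; rw [hab]; simp
      simp only [Finset.mem_insert, Finset.mem_singleton] at h1 h2
      rcases h1 with h1 | h1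
      · exact hx h1
      · rcases h2 with h2 | h2
        · exact hx h2.symm
        · exact absurd ((hxy a).trans (h2 ▸ h1 ▸ hxy b)) (lt_irrefl _))
    (fun m => Finset.card_pair (hxy m).ne)
  refine ⟨g, fun a b hab => ?_⟩
  have hne : a ≠ b := fun hh => (hxy (g a)).ne (hh ▸ hab)
  obtain ⟨c, hc⟩ := Infinite.exists_notMem_finset ({a, b} : Finset M)
  simp only [Finset.mem_insert, Finset.mem_singleton, not_or] at hc
  have h1 : x (g a) ∈ r := by rw [← hr a b hne]; simp [hab]
  rw [← hr c a hc.1] at h1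
  have h2 := h1.1
  simp only [Finset.coe_insert, Finset.coe_singleton, Set.mem_insert_iff,
    Set.mem_singleton_iff] at h2
  rcases h2 with h2 | h2
  · exact hc.1 (g.injective (hx h2)).symm
  · exact hc.2 (g.injective (hy (h2.symm.trans hab)))

lemma fin_comp {ι : Type} (S : Finset ι) (P : ι → (M ↪[L] M) → Prop)
    (h1 : ∀ i (g : M ↪[L] M), ∃ k : M ↪[L] M, P i (g.comp k))
    (h2 : ∀ i (g k : M ↪[L] M), P i g → P i (g.comp k)) (g : M ↪[L] M) :
    ∃ k : M ↪[L] M, ∀ i ∈ S, P i (g.comp k) := by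
  classical
  induction S using Finset.induction_on with
  | empty => exact ⟨Embedding.refl _ _, by simp⟩
  | insert i S _ ih =>
    obtain ⟨k, hk⟩ := ih
    obtain ⟨l, hl⟩ := h1 i (g.comp k)
    refine ⟨k.comp l, fun j hj => ?_⟩
    rcases Finset.mem_insert.1 hj with rfl | hj
    · exact hl
    · exact h2 j _ l (hk j hj)

theorem result (L : FirstOrder.Language.{u, v}) (M : Type w) [L.Structure M] [Infinite M]
    (h : Sunflowerable L M 2) (n : ℕ) : Sunflowerable L M n := by
  classical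
  refine to_sun fun X f hf hc => ?_
  letI : LinearOrder X := linearOrderOfSTO WellOrderingRel
  let x : Fin n → M → X := fun i m => (f m).orderEmbOfFin (hc m) i
  have hmem : ∀ m z, z ∈ f m ↔ ∃ i, x i m = z := fun m z => by
    rw [← Finset.mem_coe, ← Finset.range_orderEmbOfFin (f m) (hc m)]; rfl
  have hlt : ∀ m i j, i < j → x i m < x j m := fun m i j hij =>
    ((f m).orderEmbOfFin (hc m)).strictMono hij
  obtain ⟨g, hg⟩ := fin_comp (L := L) (M := M) Finset.univ
    (fun i g => (∀ a b, x i (g a) = x i (g b)) ∨ Function.Injective (x i ∘ g))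
    (fun i g => canon h (x i ∘ g))
    (fun i g k hg => hg.imp (fun hg a b => hg _ _) (fun hg => hg.comp k.injective))
    (Embedding.refl _ _)
  obtain ⟨k, hk⟩ := fin_comp (L := L) (M := M) Finset.univ
    (fun (p : Fin n × Fin n) k => p.1 < p.2 → ∀ a b, x p.1 (g (k a)) ≠ x p.2 (g (k b)))
    (fun p k => by
      by_cases hp : p.1 < p.2
      · rcases hg p.1 (by simp) with h1 | h1
        · exact ⟨Embedding.refl _ _, fun _ a b hh => (hlt _ _ _ hp).ne ((h1 _ _).trans hh)⟩
        rcases hg p.2 (by simp) with h2 | h2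
        · exact ⟨Embedding.refl _ _, fun _ a b hh => (hlt _ _ _ hp).ne (hh.trans (h2 _ _))⟩
        obtain ⟨l, hl⟩ := canon2 h (fun m => x p.1 (g (k m))) (fun m => x p.2 (g (k m)))
          (fun m => hlt _ _ _ hp) (h1.comp k.injective) (h2.comp k.injective)
        exact ⟨l, fun _ => hl⟩
      · exact ⟨Embedding.refl _ _, fun hh => absurd hh hp⟩)
    (fun p k l hk hp a b => hk hp _ _) (Embedding.refl _ _)
  refine ⟨g.comp k, {z | ∀ a, z ∈ f (g (k a))}, fun a b hab => Set.Subset.antisymm ?_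
    fun z hz => ⟨hz a, hz b⟩⟩
  rintro z ⟨h1, h2⟩ c
  obtain ⟨i, hi⟩ := (hmem _ _).1 h1
  obtain ⟨j, hj⟩ := (hmem _ _).1 h2
  rcases lt_trichotomy i j with hij | rfl | hij
  · exact absurd (hi.trans hj.symm) (hk (i, j) (by simp) hij a b)
  · rcases hg i (by simp) with h3 | h3
    · exact (hmem _ _).2 ⟨i, (h3 _ _).trans hi⟩
    · exact absurd (k.injective (h3 (hi.trans hj.symm))) hab
  · exact absurd (hj.trans hi.symm) (hk (j, i) (by simp) hij b a)

end Pool.Agent.Results.MP_615e1a_lc.Q1
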